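import Mathlib
import Pool.Agent.Q299.UP

set_option autoImplicit false

namespace Pool.Agent.Results.MP_0a3202_lc.MonadNotConvex

open Pool.Agent.Q299.UP Filter

/-- The monad of an ultrafilter `F` in the ultrapower. -/
def monad {I : Type} (W : Ultrafilter I) (F : Ultrafilter ℕ) : Set (Star W) := {x | v x = F}

/-- Convexity with respect to nonstandard divisibility. -/
def Convex {I : Type} {W : Ultrafilter I} (X : Set (Star W)) : Prop :=
  ∀ x ∈ X, ∀ y ∈ X, ∀ z : Star W, sdvd x z → sdvd z y → z ∈ X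

theorem main (I : Type) (W : Ultrafilter I) (hW : MonadsNonempty W) :
    ∃ F : Ultrafilter ℕ, {n : ℕ | 0 < n} ∈ F ∧ ¬ Convex (monad W F) := by
  let c : ℕ × ℕ → ℕ := fun p => Nat.pair p.1 p.2
  obtain ⟨w, hw⟩ := hW ((tensor (hyperfilter ℕ) (hyperfilter ℕ)).map c)
  induction w using Filter.Germ.inductionOn with
  | h w =>
  rw [v_coe] at hw
  let F : Ultrafilter ℕ := (hyperfilter ℕ).map (fun n => 2 ^ n)
  let a : I → ℕ := fun i => (Nat.unpair (w i)).1
  let b : I → ℕ := fun i => (Nat.unpair (w i)).2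
  have ha : W.map a = hyperfilter ℕ := by
    have h1 : (W.map w).map (fun n => (Nat.unpair n).1) = hyperfilter ℕ := by
      rw [hw, Ultrafilter.map_map]
      have : (fun n => (Nat.unpair n).1) ∘ c = Prod.fst := by
        funext p; simp [c]
      rw [this, map_fst_tensor]
    rw [Ultrafilter.map_map] at h1
    exact h1
  have hb : W.map b = hyperfilter ℕ := by
    have h1 : (W.map w).map (fun n => (Nat.unpair n).2) = hyperfilter ℕ := by
      rw [hw, Ultrafilter.map_map]
      have : (fun n => (Nat.unpair n).2) ∘ c = Prod.snd := by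
        funext p; simp [c]
      rw [this, map_snd_tensor]
    rw [Ultrafilter.map_map] at h1
    exact h1
  have hab : ∀ᶠ i in (W : Filter I), a i < b i := by
    have h1 : {n : ℕ | (Nat.unpair n).1 < (Nat.unpair n).2} ∈ W.map w := by
      rw [hw]
      change ∀ᶠ m in (hyperfilter ℕ : Filter ℕ), ∀ᶠ n in (hyperfilter ℕ : Filter ℕ),
        (Nat.unpair (c (m, n))).1 < (Nat.unpair (c (m, n))).2
      refine Filter.Eventually.of_forall fun m => ?_
      have h2 : (hyperfilter ℕ : Filter ℕ) ≤ atTop := by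
        rw [← Nat.cofinite_eq_atTop]
        exact hyperfilter_le_cofinite
      apply h2
      filter_upwards [eventually_gt_atTop m] with n hn
      simpa [c] using hn
    exact h1
  refine ⟨F, ?_, ?_⟩
  · change ∀ᶠ n : ℕ in (hyperfilter ℕ : Filter ℕ), 0 < 2 ^ n
    exact Filter.Eventually.of_forall fun n => by positivity
  intro hconv
  have hx : ((fun i => 2 ^ a i : I → ℕ) : Star W) ∈ monad W F := by
    change W.map (fun i => 2 ^ a i) = F
    rw [show (fun i => 2 ^ a i) = (fun n : ℕ => 2 ^ n) ∘ a from rfl, ← Ultrafilter.map_map, ha]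
  have hy : ((fun i => 2 ^ b i : I → ℕ) : Star W) ∈ monad W F := by
    change W.map (fun i => 2 ^ b i) = F
    rw [show (fun i => 2 ^ b i) = (fun n : ℕ => 2 ^ n) ∘ b from rfl, ← Ultrafilter.map_map, hb]
  have hz := hconv _ hx _ hy ((fun i => 2 ^ (a i + 1) : I → ℕ) : Star W)
    (by
      rw [sdvd_coe]
      exact Filter.Eventually.of_forall fun i => pow_dvd_pow 2 (Nat.le_succ _))
    (by
      rw [sdvd_coe]
      filter_upwards [hab] with i hi
      exact pow_dvd_pow 2 hi)
  have hz' : W.map (fun i => 2 ^ (a i + 1)) = F := hz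
  have hx' : W.map (fun i => 2 ^ a i) = F := hx
  let E : Set ℕ := {m | ∃ k, m = 2 ^ (2 * k)}
  have hdic : ∀ n : ℕ, 2 ^ n ∈ E ↔ ¬ (2 ^ (n + 1) ∈ E) := by
    intro n
    have h1 : ∀ m : ℕ, 2 ^ m ∈ E ↔ Even m := by
      intro m
      constructor
      · rintro ⟨k, hk⟩
        have := Nat.pow_right_injective le_rfl hk
        exact ⟨k, by omega⟩
      · rintro ⟨k, hk⟩
        exact ⟨k, by rw [hk, two_mul]⟩
    rw [h1, h1, Nat.even_add_one, not_not]
  have h1 : (∀ᶠ i in (W : Filter I), 2 ^ a i ∈ E) ↔ E ∈ F := by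
    rw [← hx']
    rfl
  have h2 : (∀ᶠ i in (W : Filter I), 2 ^ (a i + 1) ∈ E) ↔ E ∈ F := by
    rw [← hz']
    rfl
  have h3 : (∀ᶠ i in (W : Filter I), 2 ^ a i ∈ E) ↔ ¬ (∀ᶠ i in (W : Filter I), 2 ^ (a i + 1) ∈ E) := by
    rw [← Ultrafilter.eventually_not]
    exact Filter.eventually_congr (Filter.Eventually.of_forall fun i => hdic _)
  rw [h1, h2] at h3
  exact iff_not_self h3

/-- There is an ultrapower of `ℕ` in which all monads are nonempty, and in every such ultrapower some
monad is not convex for nonstandard divisibility. -/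
theorem result : (∃ (I : Type) (W : Ultrafilter I), MonadsNonempty W) ∧
    ∀ (I : Type) (W : Ultrafilter I), MonadsNonempty W →
      ∃ F : Ultrafilter ℕ, {n : ℕ | 0 < n} ∈ F ∧ ¬ Convex (monad W F) :=
  ⟨exists_monadsNonempty, main⟩

end Pool.Agent.Results.MP_0a3202_lc.MonadNotConvex
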